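import Mathlib
import Pool.Agent.R398.AI.Out

/-!
# The Ramanujan conjecture for `GL(4)`, `GL(8)`, ...: representations induced from `GL(2)`

Let `L / K` be a Galois extension of number fields of degree `d`, whose Galois group contains `t` elements of order
two. Let `π_1, ..., π_m` be unitary cuspidal automorphic representations of `GL_2` over `L`. We show: the set of the
places `v` of `K` such that **all the `π_j` are tempered at all the places of `L` above `v`** has lower Dirichlet
density at least

  `(1 + t) / d - m (1 / 35 + t / 20)`.

So, if `Π_j` is the automorphic representation of `GL_{2d}` over `K` which is automorphically induced from `π_j`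
(Arthur and Clozel, for solvable `L / K`), the Ramanujan conjecture holds for `Π_1, ..., Π_m` simultaneously at a set
of places of at least this density. For one representation (`m = 1`):

* if `L / K` is quadratic, the density is at least `129 / 140 > 0.92`. This applies to all cuspidal representations
  `Π` of `GL_4` over `K` with `Π ≅ Π ⊗ η` for a quadratic character `η`, as they are induced from `GL_2` over the
  quadratic extension;
* if the Galois group is `(Z/2)^r` it is at least `1 - 1 / 35 - (2^r - 1) / 20`, which is positive for `r ≤ 4`: `23 / 28`
  for representations of `GL_8`, `87 / 140` for `GL_16` and `31 / 140` for `GL_32`;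
* for a Galois group `S_3` it is at least `41 / 84`, and `33 / 70` for the dihedral group of order eight.

Known are the result of Kim and Shahidi (`34 / 35` for `GL_2`, the case `L = K`), infinitely many tempered places for
`GL_3` (Ramakrishnan), and nothing of this kind for `GL_n`, `n ≥ 4`: from the theorem of Kim and Shahidi over `L` one
gets only the places `v` which split completely, as the other ones give a set of density zero over `L`. They are
dealt with by the theorem on the inert places of a quadratic extension, `InertPlaces` of this problem.

Conditions: the `π_j` are not dihedral, tetrahedral or octahedral (these are tempered), and `A² π_j` and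
`A⁴ π_j = Sym⁴ π_j ⊗ ω^{-2}` are not isomorphic to their conjugates under the elements `σ` of order two of the Galois
group (otherwise `π_j` is, essentially, a twist of a base change from the fixed field of `σ`).

Used are: `RankinSelberg`, the Rankin-Selberg `L`-functions of `1`, `A² π_j`, `A⁴ π_j` over `L` (Gelbart and Jacquet,
Kim, Jacquet and Shalika, Shahidi), in the form that the products of the traces have mean `0` or `1`, up to `O(1)`; and
for every `σ` of order two, with the fixed field `FF σ`, the structure `CuspidalGL2` for the quadratic extension
`L / FF σ`, i.e. the analytic properties of the Asai `L`-functions of `A² π_j` and `A⁴ π_j` (Shahidi, Grbac and Shahidi),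
the bound `7 / 64`, and again the Rankin-Selberg series; see `InertPlaces` for a discussion. `Induced` says that the
`L`-factor of `Π_j` at `v` is the product of those of `π_j` at the places above `v`.

The proof: outside a finite set, the decomposition group of a place `w` of `L` of degree two over `K` is generated by an
element `σ` of order two, and `w` is inert over the place `u` of the fixed field `F` of `σ` below, which is of degree
one over `K`. By `InertPlaces` for `L / F`, the inert `u` such that `π_j` is not tempered at the place above have upper
density at most `1 / 20` among all the places of `F`. Similarly the `w` of degree one with `π_{j,w}` not tempered have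
density at most `1 / 35` by Kim and Shahidi. On the other hand the `v` with places of degree one or two above them have
density `(1 + t) / d`; this is proved by counting the pairs `(σ, u)`, without Chebotarev's theorem.
-/

set_option autoImplicit false
set_option linter.dupNamespace false

namespace Pool.Agent.Results.MP_8410ab_nt.AutomorphicInduction

open NumberField IsDedekindDomain Filter Topology Pool.Agent.R398.AI
open Pool.Agent.R398.AS (Nm Above CuspidalGL2)

open scoped Classical in
/-- **The Ramanujan conjecture for representations induced from `GL(2)` at a positive proportion of the places.** -/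
theorem result {K L : Type} [Field K] [NumberField K] [Field L] [NumberField L] [Algebra K L] [IsGalois K L] {m : ℕ}
    (α : Fin m → HeightOneSpectrum (𝓞 L) → Fin 2 → ℂ)
    (R : Fin m → Finset (HeightOneSpectrum (𝓞 L))) (hR : ∀ j, RankinSelberg (R j) (α j))
    (S : Fin m → ∀ σ : Gal(L/K), Finset (HeightOneSpectrum (𝓞 (FF σ))))
    (h : ∀ j, ∀ σ : Gal(L/K), σ ≠ 1 → σ * σ = 1 → CuspidalGL2 (S j σ) (α j)) :
    (∃ C : ℝ, ∀ᶠ x in 𝓝[>] (1 : ℝ),
      density K L m * ∑' v : HeightOneSpectrum (𝓞 K), (Nm v : ℝ) ^ (-x) ≤
        ∑' v : HeightOneSpectrum (𝓞 K), (if ∀ j, TemperedAbove (α j) v then (Nm v : ℝ) ^ (-x) else 0) + C) ∧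
    (∀ ε : ℝ, 0 < ε → ∀ᶠ x in 𝓝[>] (1 : ℝ),
      (density K L m - ε) * ∑' v : HeightOneSpectrum (𝓞 K), (Nm v : ℝ) ^ (-x) ≤
        ∑' v : HeightOneSpectrum (𝓞 K), (if ∀ j, TemperedAbove (α j) v then (Nm v : ℝ) ^ (-x) else 0)) ∧
    (∀ (n : ℕ) (S₀ : Finset (HeightOneSpectrum (𝓞 K))) (γ : Fin m → HeightOneSpectrum (𝓞 K) → Fin n → ℂ),
      (∀ j, Induced S₀ (α j) (γ j)) → ∀ ε : ℝ, 0 < ε → ∀ᶠ x in 𝓝[>] (1 : ℝ),
      (density K L m - ε) * ∑' v : HeightOneSpectrum (𝓞 K), (Nm v : ℝ) ^ (-x) ≤
        ∑' v : HeightOneSpectrum (𝓞 K), (if ∀ j i, ‖γ j v i‖ = 1 then (Nm v : ℝ) ^ (-x) else 0)) ∧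
    (Module.finrank K L = 2 → density K L m = 1 - 11 * m / 140) ∧
    ((∀ σ : Gal(L/K), σ * σ = 1) → density K L m = 1 - m * (1 / 35 + (Module.finrank K L - 1) / 20)) := by
  refine ⟨lower hR h, fun ε hε => ?_, fun n S₀ γ hI ε hε => lower_induced hR h hI hε,
    fun h2 => density_quadratic h2 m, fun h2 => density_exponent h2 m⟩
  filter_upwards [lower_eps hR h 0 hε] with x hx
  rw [add_zero] at hx
  exact hx

end Pool.Agent.Results.MP_8410ab_nt.AutomorphicInduction
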