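import Mathlib
import Pool.Agent.R370.RF.Main

/-!
# The Ramanujan conjecture for families of representations of `GL(2)` over a number field

Let `π_1, ..., π_m` be unitary cuspidal automorphic representations of `GL_2` over a number field `K`, not dihedral,
tetrahedral or octahedral (those are tempered). Each `π_i` is tempered at all places outside a set of upper Dirichlet
density at most `1/35` (Kim and Shahidi). We show that the exceptional sets of different representations are nearly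
independent, provided that the lifts `A² π_i` are pairwise not isomorphic (that is, the `π_i` are pairwise not twist
equivalent) and the lifts `A⁴ π_i` are pairwise not isomorphic. Let `N(v)` be the number of the `i` such that `π_i` is
not tempered at `v`. Then, in terms of upper Dirichlet densities (and up to `O(1)` for the series):

1. the mean square over the places of the excess `max(0, N(v)/m - 1/10)` of the proportion of the nontempered
   representations over one tenth is at most `153 / (5000 m)`; more generally, for weights `w_i ≥ 0`,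

   `∑_v max(0, ∑_{π_{i,v} not tempered} w_i - (1/10) ∑_i w_i)² (N v)^{-σ} ≤ (153/5000) ∑_i w_i² ∑_v (N v)^{-σ} + C`;

2. for `θ > 1/10` the places `v` with `N(v) ≥ θ m` have density at most `153 / (153 + 50 (10 θ - 1)² m)`. So in a
   large family, whatever it is, the Ramanujan conjecture holds for `90 %` of the representations at nearly all
   places; the bound depends only on `m` and `θ`, not on `K` and the `π_i`;

3. the places at which `|a_{i,v}| ≥ T_i` for all `i ∈ I`, where `a_{i,v}` is the trace of the Satake parameter and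
   `T_i ≥ 2`, have density at most `1 / (1 + ∑_{i ∈ I} ((T_i² - 1)² + (T_i⁴ - 3 T_i² + 1)²))`;

4. the places at which no `π_i`, `i ∈ I`, is tempered have density at most `1 / (34 |I| + 1)`: for two
   representations `1/69`, for three `1/103`.

For instance let `L / K` be a Galois extension of degree `m` and `π` a representation over `L` with `m` conjugates
satisfying the conditions, and apply the result over `L` to these conjugates: outside a set of density `O(1/m)` of the
places `w` of `L`, less than `θ m` of the representations `π^τ` are nontempered at `w`, that is, `π` is tempered at more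
than `(1 - θ) m` of the conjugates of `w`.

The structure `CuspidalFamily` (in `Pool.Agent.R370.RF.Defs`) lists what is used, all of it is known. `S` is a finite
set of places which contains those at which some `π_i` is ramified, `α_{i,v}` are the Satake parameters for `v ∉ S`.
The components are unitary. The lifts `A² π_i` (Gelbart, Jacquet) and `A⁴ π_i` (Kim) are cuspidal (Kim, Shahidi) and
selfdual; the Rankin-Selberg series of two of the representations `1, A² π_i, A⁴ π_i` converge absolutely for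
`Re s > 1` (Jacquet, Shalika), and the partial Rankin-Selberg `L`-function is meromorphic at `s = 1`, with a simple
pole if the two representations are equal and with neither a zero nor a pole otherwise (Jacquet, Piatetski-Shapiro,
Shalika; Shahidi). The case of two trivial representations, `ζ_K`, is not assumed.

The proof. For real weights `w_x` of the lifts the function `∑_{x,y} w_x w_y log L^S(s, x × y)` is a Dirichlet series
whose coefficients are squares, also at the prime powers, so that the mean square of `f(v) = ∑_x w_x tr(x_v)` is at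
most `∑_x w_x²`; no bound towards the Ramanujan conjecture is needed. With `z = |a_{i,v}|²` the traces are `z - 1` and
`z² - 3 z + 1`. The combination `(5/3) (z - 1) + (z² - 3 z + 1) = (z - 2/3)² - 10/9` is at least `-10/9`, and at least
`10` if `π_i` is not tempered at `v`; then an inequality of Cantelli's type. The threshold `1/10` is the best one for
the combinations of these lifts.
-/

set_option autoImplicit false
set_option linter.dupNamespace false

namespace Pool.Agent.Results.MP_8410ab_nt.FamiliesOfRepresentations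

open NumberField IsDedekindDomain Pool.Agent.R370.RF

variable {K : Type} [Field K] [NumberField K] {S : Finset (HeightOneSpectrum (𝓞 K))} {m : ℕ}
  {α : Fin m → Places S → Fin 2 → ℂ}

/-- weights of the lifts -/
noncomputable def wt (t : ℝ) (b c : Fin m → ℝ) : Lift m → ℝ
  | none => t
  | some (i, a) => if a = 0 then b i else c i

theorem sum_lift (g : Lift m → ℝ) : ∑ x, g x = g none + ∑ i, (g (some (i, 0)) + g (some (i, 1))) := by
  rw [Fintype.sum_option, Fintype.sum_prod_type]
  simp only [Fin.sum_univ_two]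

theorem sum_wt (t : ℝ) (b c : Fin m → ℝ) : ∑ x, wt t b c x ^ 2 = t ^ 2 + ∑ i, (b i ^ 2 + c i ^ 2) := by
  rw [sum_lift]
  simp [wt]

theorem comb_eq (h : CuspidalFamily α) (t : ℝ) (b c : Fin m → ℝ) (v : Places S) :
    comb α (wt t b c) v = t + ∑ i, (b i * (‖∑ j, α i v j‖ ^ 2 - 1) +
      c i * ((‖∑ j, α i v j‖ ^ 2) ^ 2 - 3 * ‖∑ j, α i v j‖ ^ 2 + 1)) := by
  unfold comb
  rw [sum_lift]
  have e0 : rl α none (v, 0) = 1 := Complex.one_re
  have e1 : ∀ i, rl α (some (i, 0)) (v, 0) = ‖∑ j, α i v j‖ ^ 2 - 1 := by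
    intro i
    have := Pool.Agent.R398.AS.tr_one_one (a := α i v) (h.unitary i v)
    have h2 : rl α (some (i, 0)) (v, 0) = (Pool.Agent.R398.AS.tr 1 (α i v) 1).re := rfl
    rw [h2, this, Complex.ofReal_re]
    rfl
  have e2 : ∀ i, rl α (some (i, 1)) (v, 0) = (‖∑ j, α i v j‖ ^ 2) ^ 2 - 3 * ‖∑ j, α i v j‖ ^ 2 + 1 := by
    intro i
    have := Pool.Agent.R398.AS.tr_two_one (a := α i v) (h.unitary i v)
    have h2 : rl α (some (i, 1)) (v, 0) = (Pool.Agent.R398.AS.tr 2 (α i v) 1).re := rfl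
    rw [h2, this, Complex.ofReal_re]
    rfl
  simp only [e0, e1, e2]
  simp [wt]

theorem summ {σ : ℝ} (hσ : 1 < σ) (p : Places S → Prop) [DecidablePred p] :
    Summable fun v : Places S => if p v then (Nm v.1 : ℝ) ^ (-σ) else 0 := by
  refine Summable.of_nonneg_of_le (fun v => ?_) (fun v => ?_) (summable_Nm' hσ)
  · have := (Nm_pos v.1).le
    split_ifs <;> positivity
  · have := (Nm_pos v.1).le
    split_ifs
    · exact le_rfl
    · positivity

theorem dens (h : CuspidalFamily α) (w : Lift m → ℝ) {A : ℝ} (hA : 0 ≤ A) (p : Places S → Prop) [DecidablePred p]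
    (hp : ∀ v, p v → A ≤ comb α w v) : ∃ C : ℝ, ∀ σ : ℝ, 1 < σ →
      A ^ 2 * ∑' v : Places S, (if p v then (Nm v.1 : ℝ) ^ (-σ) else 0) ≤
        (∑ x, w x ^ 2) * ∑' v : Places S, (Nm v.1 : ℝ) ^ (-σ) + C := by
  obtain ⟨hs, C, hC⟩ := second_moment h w
  refine ⟨C, fun σ hσ => le_trans ?_ (hC σ hσ)⟩
  rw [← tsum_mul_left]
  refine ((summ hσ p).mul_left _).tsum_le_tsum (fun v => ?_) (hs σ hσ)
  have h0 := (Nm_pos v.1).le
  split_ifs with hv
  · refine mul_le_mul_of_nonneg_right ?_ (by positivity)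
    exact pow_le_pow_left₀ hA (hp v hv) 2
  · rw [mul_zero]
    positivity

/-- **The Ramanujan conjecture in families of representations of `GL(2)`.** -/
theorem result (h : CuspidalFamily α) :
    (∀ w : Fin m → ℝ, (∀ i, 0 ≤ w i) → ∃ C : ℝ, ∀ σ : ℝ, 1 < σ →
      (Summable fun v : Places S => max 0 ((∑ i with ¬ ∀ j, ‖α i v j‖ = 1, w i) - 1 / 10 * ∑ i, w i) ^ 2 *
        (Nm v.1 : ℝ) ^ (-σ)) ∧
      ∑' v : Places S, max 0 ((∑ i with ¬ ∀ j, ‖α i v j‖ = 1, w i) - 1 / 10 * ∑ i, w i) ^ 2 *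
        (Nm v.1 : ℝ) ^ (-σ) ≤ 153 / 5000 * (∑ i, w i ^ 2) * ∑' v : Places S, (Nm v.1 : ℝ) ^ (-σ) + C) ∧
    (∀ θ : ℝ, 1 / 10 < θ → ∃ C : ℝ, ∀ σ : ℝ, 1 < σ →
      (153 + 50 * (10 * θ - 1) ^ 2 * m) * ∑' v : Places S,
        (if θ * m ≤ (({i | ¬ ∀ j, ‖α i v j‖ = 1} : Finset (Fin m)).card : ℝ) then (Nm v.1 : ℝ) ^ (-σ) else 0) ≤
      153 * ∑' v : Places S, (Nm v.1 : ℝ) ^ (-σ) + C) ∧
    (∀ (I : Finset (Fin m)) (T : Fin m → ℝ), (∀ i, 2 ≤ T i) → ∃ C : ℝ, ∀ σ : ℝ, 1 < σ →
      (1 + ∑ i ∈ I, ((T i ^ 2 - 1) ^ 2 + (T i ^ 4 - 3 * T i ^ 2 + 1) ^ 2)) * ∑' v : Places S,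
        (if ∀ i ∈ I, T i ≤ ‖∑ j, α i v j‖ then (Nm v.1 : ℝ) ^ (-σ) else 0) ≤
      ∑' v : Places S, (Nm v.1 : ℝ) ^ (-σ) + C) ∧
    ∀ I : Finset (Fin m), ∃ C : ℝ, ∀ σ : ℝ, 1 < σ →
      (34 * I.card + 1) * ∑' v : Places S,
        (if ∀ i ∈ I, ¬ ∀ j, ‖α i v j‖ = 1 then (Nm v.1 : ℝ) ^ (-σ) else 0) ≤
      ∑' v : Places S, (Nm v.1 : ℝ) ^ (-σ) + C := by
  classical
  have hnt : ∀ i v, (¬ ∀ j, ‖α i v j‖ = 1) → 4 ≤ ‖∑ j, α i v j‖ ^ 2 := fun i v hn =>
    Pool.Agent.R398.AS.four_le_zz (h.unitary i v) hn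
  -- the lower bound for the combination `5/3, 1`
  have hlow : ∀ (w : Fin m → ℝ), (∀ i, 0 ≤ w i) → ∀ (t : ℝ) (v : Places S),
      t + 100 / 9 * ((∑ i with ¬ ∀ j, ‖α i v j‖ = 1, w i) - 1 / 10 * ∑ i, w i) ≤
        comb α (wt t (fun i => 5 / 3 * w i) w) v := by
    intro w hw t v
    rw [comb_eq h, Finset.sum_filter, Finset.mul_sum, ← Finset.sum_sub_distrib, Finset.mul_sum]
    gcongr with i
    set z := ‖∑ j, α i v j‖ ^ 2 with hz
    by_cases hn : ∀ j, ‖α i v j‖ = 1
    · rw [if_neg (not_not.2 hn)]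
      have h6 : -(10 / 9) ≤ 5 / 3 * (z - 1) + (z ^ 2 - 3 * z + 1) := by nlinarith [sq_nonneg (z - 2 / 3)]
      have h7 := mul_le_mul_of_nonneg_left h6 (hw i)
      nlinarith
    · rw [if_pos hn]
      have h4 := hnt i v hn
      rw [← hz] at h4
      have h5 : 0 ≤ (z - 4) * (z + 8 / 3) := mul_nonneg (by linarith) (by linarith)
      have h6 : 10 ≤ 5 / 3 * (z - 1) + (z ^ 2 - 3 * z + 1) := by nlinarith
      have h7 := mul_le_mul_of_nonneg_left h6 (hw i)
      nlinarith
  have h3 : ∀ (I : Finset (Fin m)) (T : Fin m → ℝ), (∀ i, 2 ≤ T i) → ∃ C : ℝ, ∀ σ : ℝ, 1 < σ →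
      (1 + ∑ i ∈ I, ((T i ^ 2 - 1) ^ 2 + (T i ^ 4 - 3 * T i ^ 2 + 1) ^ 2)) * ∑' v : Places S,
        (if ∀ i ∈ I, T i ≤ ‖∑ j, α i v j‖ then (Nm v.1 : ℝ) ^ (-σ) else 0) ≤
      ∑' v : Places S, (Nm v.1 : ℝ) ^ (-σ) + C := by
    intro I T hT
    set D := ∑ i ∈ I, ((T i ^ 2 - 1) ^ 2 + (T i ^ 4 - 3 * T i ^ 2 + 1) ^ 2) with hD
    have hD0 : 0 ≤ D := Finset.sum_nonneg fun i _ => by positivity
    set b : Fin m → ℝ := fun i => if i ∈ I then T i ^ 2 - 1 else 0 with hb
    set c : Fin m → ℝ := fun i => if i ∈ I then T i ^ 4 - 3 * T i ^ 2 + 1 else 0 with hc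
    have hbc : ∑ x, wt 1 b c x ^ 2 = 1 + D := by
      rw [sum_wt, hD, one_pow]
      congr 1
      rw [← Finset.sum_subset (Finset.subset_univ I) (f := fun i => b i ^ 2 + c i ^ 2)]
      · refine Finset.sum_congr rfl fun i hi => ?_
        rw [hb, hc]
        simp only [if_pos hi]
      · intro i _ hi
        rw [hb, hc]
        simp only [if_neg hi]
        norm_num
    obtain ⟨C, hC⟩ := dens h (wt 1 b c) (A := 1 + D) (by linarith) (fun v => ∀ i ∈ I, T i ≤ ‖∑ j, α i v j‖) (by
      intro v hv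
      rw [comb_eq h, hD]
      gcongr
      rw [← Finset.sum_subset (Finset.subset_univ I) (f := fun i => b i * (‖∑ j, α i v j‖ ^ 2 - 1) +
        c i * ((‖∑ j, α i v j‖ ^ 2) ^ 2 - 3 * ‖∑ j, α i v j‖ ^ 2 + 1))]
      · refine Finset.sum_le_sum fun i hi => ?_
        have h1 := hv i hi
        have h2 := hT i
        rw [hb, hc]
        simp only [if_pos hi]
        set y := ‖∑ j, α i v j‖ with hy
        have h4 : T i ^ 2 ≤ y ^ 2 := pow_le_pow_left₀ (by linarith) h1 2
        have h5 : 4 ≤ T i ^ 2 := by nlinarith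
        have h6 : (T i ^ 2 - 1) ^ 2 ≤ (T i ^ 2 - 1) * (y ^ 2 - 1) := by
          rw [sq]
          exact mul_le_mul_of_nonneg_left (by linarith) (by linarith)
        have h7 : 0 ≤ T i ^ 4 - 3 * T i ^ 2 + 1 := by nlinarith
        have h8 : T i ^ 4 - 3 * T i ^ 2 + 1 ≤ (y ^ 2) ^ 2 - 3 * y ^ 2 + 1 := by
          have : 0 ≤ (y ^ 2 - T i ^ 2) * (y ^ 2 + T i ^ 2 - 3) := mul_nonneg (by linarith) (by linarith)
          nlinarith
        have h9 : (T i ^ 4 - 3 * T i ^ 2 + 1) ^ 2 ≤ (T i ^ 4 - 3 * T i ^ 2 + 1) * ((y ^ 2) ^ 2 - 3 * y ^ 2 + 1) := by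
          rw [sq]
          exact mul_le_mul_of_nonneg_left h8 h7
        linarith
      · intro i _ hi
        rw [hb, hc]
        simp only [if_neg hi]
        norm_num)
    rw [hbc] at hC
    refine ⟨|C| / (1 + D), fun σ hσ => ?_⟩
    have h1 := hC σ hσ
    set P := ∑' v : Places S, (if ∀ i ∈ I, T i ≤ ‖∑ j, α i v j‖ then (Nm v.1 : ℝ) ^ (-σ) else 0) with hP
    set Q := ∑' v : Places S, (Nm v.1 : ℝ) ^ (-σ) with hQ
    have h2 : (1 + D) * ((1 + D) * P) ≤ (1 + D) * (Q + |C| / (1 + D)) := by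
      rw [mul_add, mul_div_cancel₀ _ (by linarith : (1 + D) ≠ 0)]
      have := le_abs_self C
      nlinarith
    exact le_of_mul_le_mul_left h2 (by linarith)
  refine ⟨fun w hw => ?_, fun θ hθ => ?_, h3, fun I => ?_⟩
  · obtain ⟨hs, C, hC⟩ := second_moment h (wt 0 (fun i => 5 / 3 * w i) w)
    have hsum : ∑ x, wt 0 (fun i => 5 / 3 * w i) w x ^ 2 = 34 / 9 * ∑ i, w i ^ 2 := by
      rw [sum_wt, Finset.mul_sum, sq, zero_mul, zero_add]
      exact Finset.sum_congr rfl fun i _ => by ring
    have hpt : ∀ v : Places S, max 0 ((∑ i with ¬ ∀ j, ‖α i v j‖ = 1, w i) - 1 / 10 * ∑ i, w i) ^ 2 ≤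
        81 / 10000 * comb α (wt 0 (fun i => 5 / 3 * w i) w) v ^ 2 := by
      intro v
      have h1 := hlow w hw 0 v
      set E := (∑ i with ¬ ∀ j, ‖α i v j‖ = 1, w i) - 1 / 10 * ∑ i, w i with hE
      set f := comb α (wt 0 (fun i => 5 / 3 * w i) w) v with hf
      rcases le_total E 0 with hc | hc
      · rw [max_eq_left hc]
        nlinarith [sq_nonneg f]
      · rw [max_eq_right hc]
        have h2 : E ≤ 9 / 100 * f := by linarith
        have h4 := pow_le_pow_left₀ hc h2 2
        nlinarith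
    refine ⟨81 / 10000 * C, fun σ hσ => ?_⟩
    have hsm : Summable fun v : Places S => max 0 ((∑ i with ¬ ∀ j, ‖α i v j‖ = 1, w i) - 1 / 10 * ∑ i, w i) ^ 2 *
        (Nm v.1 : ℝ) ^ (-σ) := by
      refine Summable.of_nonneg_of_le (fun v => ?_) (fun v => ?_) ((hs σ hσ).mul_left (81 / 10000))
      · have := (Nm_pos v.1).le
        positivity
      · rw [← mul_assoc]
        refine mul_le_mul_of_nonneg_right (hpt v) ?_
        have := (Nm_pos v.1).le
        positivity
    refine ⟨hsm, ?_⟩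
    have h1 := hC σ hσ
    rw [hsum] at h1
    calc _ ≤ ∑' v : Places S, 81 / 10000 * (comb α (wt 0 (fun i => 5 / 3 * w i) w) v ^ 2 * (Nm v.1 : ℝ) ^ (-σ)) := by
          refine hsm.tsum_le_tsum (fun v => ?_) ((hs σ hσ).mul_left (81 / 10000))
          rw [← mul_assoc]
          refine mul_le_mul_of_nonneg_right (hpt v) ?_
          have := (Nm_pos v.1).le
          positivity
      _ ≤ _ := by
          rw [tsum_mul_left]
          nlinarith
  · have hu : 0 < 10 * θ - 1 := by linarith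
    set u := 10 * θ - 1 with hud
    set t := 17 / (5 * u) with ht
    have hm0 : (0 : ℝ) ≤ m := Nat.cast_nonneg m
    set M := 153 + 50 * u ^ 2 * m with hM
    have hMpos : 0 < M := by positivity
    have hA : t + 10 / 9 * u * m = M / (45 * u) := by
      rw [ht, hM]
      field_simp
      ring
    obtain ⟨C, hC⟩ := dens h (wt t (fun _ => 5 / 3 * 1) (fun _ => 1)) (A := M / (45 * u)) (by positivity)
      (fun v => θ * m ≤ (({i | ¬ ∀ j, ‖α i v j‖ = 1} : Finset (Fin m)).card : ℝ)) (by
      intro v hv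
      have h1 := hlow (fun _ => 1) (fun _ => zero_le_one) t v
      refine le_trans ?_ h1
      rw [← hA]
      simp only [Finset.sum_const, nsmul_eq_mul, mul_one, Finset.card_univ, Fintype.card_fin]
      have : 10 / 9 * u * m = 100 / 9 * (θ * m - 1 / 10 * m) := by
        rw [hud]
        ring
      rw [this]
      gcongr)
    have hsum : ∑ x, wt t (fun _ : Fin m => 5 / 3 * 1) (fun _ => 1) x ^ 2 = 17 * M / (225 * u ^ 2) := by
      rw [sum_wt, ht, hM]
      simp only [Finset.sum_const, nsmul_eq_mul, Finset.card_univ, Fintype.card_fin]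
      field_simp
      ring
    rw [hsum] at hC
    refine ⟨C * (2025 * u ^ 2 / M), fun σ hσ => ?_⟩
    have h1 := hC σ hσ
    set P := ∑' v : Places S, (if θ * m ≤ (({i | ¬ ∀ j, ‖α i v j‖ = 1} : Finset (Fin m)).card : ℝ)
      then (Nm v.1 : ℝ) ^ (-σ) else 0) with hP
    set Q := ∑' v : Places S, (Nm v.1 : ℝ) ^ (-σ) with hQ
    have h2 := mul_le_mul_of_nonneg_right h1 (by positivity : 0 ≤ 2025 * u ^ 2 / M)
    have e1 : (M / (45 * u)) ^ 2 * P * (2025 * u ^ 2 / M) = M * P := by
      field_simp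
      ring
    have e2 : (17 * M / (225 * u ^ 2) * Q + C) * (2025 * u ^ 2 / M) = 153 * Q + C * (2025 * u ^ 2 / M) := by
      field_simp
      ring
    rw [e1, e2] at h2
    exact h2
  · obtain ⟨C, hC⟩ := h3 I (fun _ => 2) (fun _ => le_rfl)
    refine ⟨C, fun σ hσ => ?_⟩
    have h1 := hC σ hσ
    have e1 : (1 : ℝ) + ∑ i ∈ I, (((2 : ℝ) ^ 2 - 1) ^ 2 + ((2 : ℝ) ^ 4 - 3 * (2 : ℝ) ^ 2 + 1) ^ 2) =
        34 * (I.card : ℝ) + 1 := by
      rw [Finset.sum_const, nsmul_eq_mul]
      ring
    rw [e1] at h1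
    refine le_trans (mul_le_mul_of_nonneg_left ?_ (by positivity)) h1
    refine (summ hσ _).tsum_le_tsum (fun v => ?_) (summ hσ _)
    have h0 : 0 ≤ (Nm v.1 : ℝ) ^ (-σ) := by
      have := (Nm_pos v.1).le
      positivity
    by_cases hv : ∀ i ∈ I, ¬ ∀ j, ‖α i v j‖ = 1
    · rw [if_pos hv, if_pos]
      intro i hi
      have := hnt i v (hv i hi)
      exact le_of_sq_le_sq (by linarith) (norm_nonneg _)
    · rw [if_neg hv]
      split_ifs
      · exact h0
      · exact le_rfl
where
  le_of_sq_le_sq {a b : ℝ} (h : a ^ 2 ≤ b ^ 2) (hb : 0 ≤ b) : a ≤ b := abs_le_of_sq_le_sq' h hb |>.2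

end Pool.Agent.Results.MP_8410ab_nt.FamiliesOfRepresentations
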