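import Mathlib
import Pool.Agent.R398.AS.Fam

/-!
# The Ramanujan conjecture for `GL(2)` over number fields: nine tenths of the inert places of a quadratic extension

Let `E / K` be a quadratic extension of number fields and `π` a unitary cuspidal automorphic representation of `GL_2`
over `E`. The known results on the proportion of the places at which `π` is tempered (9/10, Ramakrishnan; 34/35, Kim and
Shahidi) say nothing about the places `w` of `E` which are inert over `K`, i.e. of degree two: these have density zero
among the places of `E` (there are about `x^{1/2}` of them of norm at most `x`). We show that `π_w` is tempered for at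
least nine tenths of the inert places. More precisely, let `v` run through the places of `K` which are inert in `E`,
outside a finite set `S`, let `w` be the place of `E` above `v`, and `a_v` the trace of the Satake parameter of `π_w`.
Then, for `σ > 1`,

* `∑ |a_v|² (N v)^{-σ} = ∑ (N v)^{-σ} + O(1)` and `∑ |a_v|⁴ (N v)^{-σ} = 2 ∑ (N v)^{-σ} + O(1)`: the second and
  the fourth moment at the inert places are those of the Sato-Tate distribution;
* for every `Z > 1`, `(1 + (Z - 1)²) ∑_{|a_v|² ≥ Z} (N v)^{-σ} ≤ ∑ (N v)^{-σ} + O(1)`;
* the sum of `(N v)^{-σ}` over the inert places tends to infinity as `σ → 1`, and the places with `π_w` not tempered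
  contribute at most one tenth of it, up to `O(1)`; so **the inert places at which `π` is tempered have lower
  (Dirichlet) density at least `9/10` among all inert places**;
* for `m ≤ 9` representations `π_1, ..., π_m`, all of them are tempered at a set of inert places of lower density at
  least `1 - m / 10` among the inert places.

In other words: for cuspidal representations of the group `Res_{E/K} GL_2` over `K`, the Ramanujan conjecture holds at
nine tenths of the inert places.

Conditions: `π` is not dihedral, tetrahedral or octahedral (these are tempered), and the lifts `A² π` and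
`A⁴ π = Sym⁴ π ⊗ ω_π^{-2}` are not isomorphic to their conjugates under `Gal(E / K)` (otherwise `π` is, essentially, a
twist of a base change from `K`, and the results of Kim and Shahidi over `K` apply). `S` contains the places which
ramify in `E` and those below the places at which `π` is ramified.

The structure `CuspidalGL2` lists what is used of `π`, all of it is known: the components are unitary; the bounds
`|α_{i,w}| ≤ (N w)^{7/64}` (Kim and Sarnak; Blomer and Brumley for number fields); the Rankin-Selberg series of `A⁴ π`
converges for `Re s > 1` (Kim; Jacquet and Shalika); the Euler products of the Asai `L`-functions of `A² π` and `A⁴ π`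
and their twists by the quadratic character `η` of `E / K` converge absolutely for `Re s > 2` (by the bounds), these
functions are holomorphic for `Re s > 1/2` (Grbac and Shahidi; there are no poles as the lifts are not
conjugation invariant), and without zeros for `Re s ≥ 1` (Shahidi; their product is a Rankin-Selberg `L`-function).

The proof: at an inert place the trace of the Asai lift is the trace of the representation itself, so that
`log L(s, As Π) - log L(s, As Π ⊗ η)` is `2 ∑ tr(Π_w) (N v)^{-s}`, over the inert places, plus the terms with odd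
`k ≥ 3`. The bounds and the Rankin-Selberg series over `E` show that the latter converge for `Re s ≥ 1`. The
combination `5 · A² + 3 · A⁴` has trace bounded from below, so that by Landau's lemma its series converges for
`Re s > 1`; all moments up to the fourth follow, and then an inequality of Cantelli.
-/

set_option autoImplicit false
set_option linter.dupNamespace false

namespace Pool.Agent.Results.MP_8410ab_nt.InertPlaces

open NumberField IsDedekindDomain Filter Topology Pool.Agent.R398.AS

/-- the places `v ∉ S` of `K` which are inert in `E` -/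
abbrev InertPlaces {K : Type} [Field K] [NumberField K] (E : Type) [Field E] [NumberField E] [Algebra K E]
    (S : Finset (HeightOneSpectrum (𝓞 K))) :=
  {v : HeightOneSpectrum (𝓞 K) // v ∉ S ∧ Inert E v}

open scoped Classical in
/-- **The Ramanujan conjecture for `GL(2)` at nine tenths of the inert places of a quadratic extension.** -/
theorem result {K E : Type} [Field K] [NumberField K] [Field E] [NumberField E] [Algebra K E]
    (hE : Module.finrank K E = 2) (S : Finset (HeightOneSpectrum (𝓞 K))) (m : ℕ)
    (α : Fin m → HeightOneSpectrum (𝓞 E) → Fin 2 → ℂ) (h : ∀ j, CuspidalGL2 S (α j)) :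
    Tendsto (fun σ : ℝ => ∑' v : InertPlaces E S, (Nm v.1 : ℝ) ^ (-σ)) (𝓝[>] 1) atTop ∧
    (∀ j, ∃ C : ℝ, ∀ σ : ℝ, 1 < σ →
      (Summable fun v : InertPlaces E S => ‖∑ i, α j (up v.1 v.2.2) i‖ ^ 4 * (Nm v.1 : ℝ) ^ (-σ)) ∧
      |∑' v : InertPlaces E S, (‖∑ i, α j (up v.1 v.2.2) i‖ ^ 2 - 1) * (Nm v.1 : ℝ) ^ (-σ)| ≤ C ∧
      |∑' v : InertPlaces E S, (‖∑ i, α j (up v.1 v.2.2) i‖ ^ 4 - 2) * (Nm v.1 : ℝ) ^ (-σ)| ≤ C) ∧
    (∀ j, ∀ Z : ℝ, 1 < Z → ∃ C : ℝ, ∀ σ : ℝ, 1 < σ →
      (1 + (Z - 1) ^ 2) * ∑' v : InertPlaces E S,
          (if Z ≤ ‖∑ i, α j (up v.1 v.2.2) i‖ ^ 2 then (Nm v.1 : ℝ) ^ (-σ) else 0) ≤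
        ∑' v : InertPlaces E S, (Nm v.1 : ℝ) ^ (-σ) + C) ∧
    (∃ C : ℝ, ∀ σ : ℝ, 1 < σ →
      10 * ∑' v : InertPlaces E S,
          (if ∀ j i, ‖α j (up v.1 v.2.2) i‖ = 1 then 0 else (Nm v.1 : ℝ) ^ (-σ)) ≤
        m * ∑' v : InertPlaces E S, (Nm v.1 : ℝ) ^ (-σ) + C) ∧
    ∀ ε : ℝ, 0 < ε → ∀ᶠ σ in 𝓝[>] (1 : ℝ),
      (1 - m / 10 - ε) * ∑' v : InertPlaces E S, (Nm v.1 : ℝ) ^ (-σ) ≤
        ∑' v : InertPlaces E S, (if ∀ j i, ‖α j (up v.1 v.2.2) i‖ = 1 then (Nm v.1 : ℝ) ^ (-σ) else 0) := by
  refine ⟨inert_tendsto hE S, fun j => ?_, fun j Z hZ => large (h j) hE Z hZ, family_le hE h,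
    fun ε hε => family_density hE h hε⟩
  obtain ⟨C1, hC1⟩ := mean_one (h j) hE
  obtain ⟨C2, hC2⟩ := mean_two (h j) hE
  have e : ∀ v : InertPlaces E S, zz (aw (α j) v) ^ 2 = ‖∑ i, α j (up v.1 v.2.2) i‖ ^ 4 := fun v => by
    unfold zz aw
    ring
  refine ⟨max C1 C2, fun σ hσ => ⟨?_, (hC1 σ hσ).trans (le_max_left _ _), ?_⟩⟩
  · refine (summable_zz (h j) hE hσ).congr fun v => ?_
    rw [e v]
  · refine le_trans (le_of_eq ?_) ((hC2 σ hσ).trans (le_max_right _ _))
    congr 1
    refine tsum_congr fun v => ?_
    rw [e v]

end Pool.Agent.Results.MP_8410ab_nt.InertPlaces
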