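import Mathlib
import Pool.Agent.R398.LI.Main
import Pool.Agent.Y725.UG.Temp2

/-!
# The Ramanujan conjecture for `GL(2)` over number fields: the least inert tempered place

Let `K` be a number field, `E / K` a quadratic extension and `π` a unitary cuspidal automorphic representation of
`GL_2` over `E`. The known results about the places at which `π` is tempered say nothing about the places `w` of `E`
of degree two over `K`, as these have density zero among the places of `E`. We show: for every `ε > 0` there is a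
constant `A`, **depending only on `K` and `ε`**, such that for all `E` and all such `π` there is a place `v` of `K` which
is inert in `E`, and such that

  `π_w` is tempered at the place `w` above `v`, and `N v ≤ A C^{1+ε}`,

where `C` is the product of the analytic conductors of the adjoint `L`-function of the Asai lift of `π` and of the
`L`-function of the quadratic character of `E / K`, up to the norms of the finitely many local factors which are
removed at the finite set `S` of the bad places. So the least place of degree two at which the Ramanujan conjecture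
holds is bounded by a power of the conductor, uniformly in `E` and `π`. More generally let `π_1, ..., π_m` be `m` such
representations. They are simultaneously tempered at the place above an inert `v` with `N v ≤ A (C_1 ... C_m)^{1+ε}`,
`A` depending only on `K`, `m` and `ε`,

1. for `m ≤ 2`, with the conductors of the Asai lifts of the `π_i`;
2. for `m ≤ 4`, with the conductors of the Asai lifts of the adjoint lifts `Ad π_i` of `π_i` to `GL_3`.

Both follow from the first part of the theorem, which for representations `Π_1, ..., Π_m` of `GL_n` over `E` gives an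
inert `v` and an odd `k` with `(N v)^k ≤ A (C_1 ... C_m)^{1+ε}` and `∑_i |tr Π_{i,w}^k|² < 2 m`. (If `π_{i,w}` is not
tempered, then `|tr π_{i,w}^k| ≥ 2` and `|tr Ad(π_{i,w})^k| ≥ 3` for all `k`.)

Conditions: in case 1 `π_i` is not dihedral and `Ad π_i` is not isomorphic to its conjugate under `Gal(E / K)`; in case
2 `π_i` is not dihedral, tetrahedral or octahedral and `Ad π_i` and `A⁴ π_i = Sym⁴ π_i ⊗ ω^{-2}` are not isomorphic to
their conjugates. (Otherwise `π_i` is tempered or, essentially, a twist of a base change from `K`.) Then the adjoint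
`L`-function of the Asai lift, i.e. `L(s, As Π × (As Π)~) / ζ_K(s)`, is entire, as it is

* `L_E(s, Ad π) L_K(s, As(Ad π))` in case 1,
* `L_E(s, Ad π) L_E(s, A⁴ π) L_K(s, As(Ad π)) L_K(s, As(A⁴ π)) L_E(s, Ad π × (A⁴ π)')` in case 2, `'` the conjugate.

The structures `QuadraticL` and `AsaiGL` (`Pool/Agent/R398/LI/Defs.lean`) list what is used, all of it is known: Hecke's
theorem on the `L`-function of a quadratic character; the bound `7 / 64` of Kim and Sarnak, Blomer and Brumley (for the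
field in `bound` also for `Ad π`, as `7 / 32 < 1 / 4`), and the corresponding bounds at the places of `S` and at
infinity; the `L`-functions above are entire, of polynomial growth in vertical strips, with functional equations
(Gelbart, Jacquet; Kim; Jacquet, Piatetski-Shapiro, Shalika; for the Asai `L`-functions Shahidi, Gelbart and Shahidi,
Grbac and Shahidi). A factor `Γ_ℝ(s)` occurs because a representation of the Weil group of `ℝ` or `ℂ` of dimension at
least three is reducible. `S` contains the places which ramify in `E` and those below the places at which some `π_i` is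
not a twist of an unramified representation. For `v ∈ S` the `β_{v,j}` are the reciprocal roots of the local factor
of the adjoint `L`-function, filled up with zeros, and `T_i` is a set of pairs `(v, j)` with `|β_{v,j}| = 1` such that
`∑_j β_{v,j}^k`, `(v, j) ∉ T_i`, is nonnegative for all `k ≥ 1`.

The proof: consider the product over `i` of the adjoint `L`-functions of the `As Π_i` and of the `L`-function of the
quadratic character `χ`. The coefficient at `v` and `k` of its logarithm is `∑_i (|tr As(Π_i)_v^k|² - 1 + χ(v)^k) / k`.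
It is nonnegative unless `v` is inert and `k` odd, and at such places `As(Π_i)_v` has the same trace as `Π_{i,w}`:
the parameters of `As(π)_v` are `a, b, c, -c`, `c² = a b`, if `a, b` are those of `π_w`. Now apply the uniform version
of Landau's theorem, see `Pool.Agent.TH949.UL`: not all the coefficients of small index are nonnegative.

See `InertPlaces` of this problem for the density of the inert places at which a fixed `π` is tempered, and
`LeastTemperedPlace` and `SimultaneouslyTempered` for the least tempered place without a condition on its splitting.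
-/

set_option autoImplicit false

namespace Pool.Agent.Results.MP_8410ab_nt.LeastInertPlace

open NumberField IsDedekindDomain Pool.Agent.R398.LI
open Pool.Agent.R398.AS (Nm Above Inert)

/-- the parameters of a unitary representation -/
def Unitary {n : ℕ} (a : Fin n → ℂ) : Prop :=
  (∀ i, a i ≠ 0) ∧ ∃ τ : Equiv.Perm (Fin n), ∀ i, a (τ i) = ((starRingEnd ℂ) (a i))⁻¹

/-- the Satake parameters of the adjoint lift `Ad π` to `GL_3` of a representation `π` of `GL_2` -/
noncomputable def lift3 (a : Fin 2 → ℂ) : Fin 3 → ℂ := ![a 0 / a 1, 1, a 1 / a 0]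

open scoped Classical in
/-- the conductor: `Q₀²` is the one of the quadratic character of `E / K` and `Q²` the one of the adjoint `L`-function
of the Asai lift, `κ` are the parameters of its Gamma factors and `T` are the removed factors -/
noncomputable def conductor {K : Type} [Field K] [NumberField K] (E : Type) [Field E] [NumberField E] [Algebra K E]
    (S : Finset (HeightOneSpectrum (𝓞 K))) (Q₀ : ℝ) {r N : ℕ} (T : Finset (HeightOneSpectrum (𝓞 K) × Fin r))
    (κ : Fin N → ℂ) (Q : ℝ) : ℝ :=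
  (Q₀ * Q) ^ 2 * (∏ j, (1 + ‖κ j‖)) * (∏ x ∈ T, (Nm x.1 : ℝ)) * ∏ v ∈ S.filter fun v => Inert E v, (Nm v : ℝ)

theorem cond_eq {K : Type} [Field K] [NumberField K] (E : Type) [Field E] [NumberField E] [Algebra K E]
    (S : Finset (HeightOneSpectrum (𝓞 K))) (Q₀ : ℝ) {r N : ℕ} (T : Finset (HeightOneSpectrum (𝓞 K) × Fin r))
    (κ : Fin N → ℂ) (Q : ℝ) : conductor E S Q₀ T κ Q =
      (Q₀ * Q) ^ 2 * (∏ j, (1 + ‖κ j‖)) * (∏ x ∈ T, (Nm x.1 : ℝ)) * ∏ v ∈ SI E S, (Nm v : ℝ) := rfl

theorem first (K : Type) [Field K] [NumberField K] {m : ℕ} (hm : 0 < m) (n : ℕ) {ε : ℝ} (hε : 0 < ε) :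
    ∃ A : ℝ, 0 < A ∧ ∀ (E : Type) [Field E] [NumberField E] [Algebra K E], Module.finrank K E = 2 →
      ∀ (κ₀ : Fin (Module.finrank ℚ K) → ℂ) (Q₀ : ℝ), QuadraticL K E κ₀ Q₀ →
      ∀ (S : Finset (HeightOneSpectrum (𝓞 K))) (α : Fin m → HeightOneSpectrum (𝓞 E) → Fin n → ℂ)
        (β : Fin m → HeightOneSpectrum (𝓞 K) → Fin (n ^ 4 - 1) → ℂ)
        (T : Fin m → Finset (HeightOneSpectrum (𝓞 K) × Fin (n ^ 4 - 1)))
        (κ : Fin m → Fin ((n ^ 4 - 1) * Module.finrank ℚ K) → ℂ) (Q : Fin m → ℝ),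
        (∀ i, AsaiGL S (α i) (β i) (T i) (κ i) (Q i)) →
        ∃ (v : HeightOneSpectrum (𝓞 K)) (k : ℕ), v ∉ S ∧ Inert E v ∧ Odd k ∧
          (Nm v : ℝ) ^ k ≤ A * (∏ i, conductor E S Q₀ (T i) (κ i) (Q i)) ^ (1 + ε) ∧
          ∀ w : HeightOneSpectrum (𝓞 E), Above v w → ∑ i, ‖∑ j, α i w j ^ k‖ ^ 2 < 2 * m := by
  obtain ⟨A, hA0, hA⟩ := least_inert K n m hε
  refine ⟨A, hA0, fun E _ _ _ h2 κ₀ Q₀ h₀ S α β T κ Q h => ?_⟩
  obtain ⟨v, hv, hi, k, hk, hle, hlt⟩ := hA E h2 κ₀ Q₀ h₀ S α β T κ Q hm h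
  refine ⟨v, k, hv, hi, hk, ?_, fun w hw => ?_⟩
  · simp_rw [cond_eq]
    exact hle
  · rw [(Pool.Agent.R398.AS.above_iff hi w).1 hw]
    exact hlt

theorem out {K : Type} [Field K] [NumberField K] {E : Type} [Field E] [NumberField E] [Algebra K E]
    {S : Finset (HeightOneSpectrum (𝓞 K))} {v : HeightOneSpectrum (𝓞 K)} (hv : v ∉ S)
    {w : HeightOneSpectrum (𝓞 E)} (hw : Above v w) : ∀ u ∈ S, ¬ Above u w := by
  intro u hu hc
  have e : u = v := HeightOneSpectrum.ext (hc.symm.trans hw)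
  exact hv (e ▸ hu)

theorem norm_le {K : Type} [Field K] [NumberField K] {v : HeightOneSpectrum (𝓞 K)} {k : ℕ} (hk : Odd k) :
    (Nm v : ℝ) ≤ (Nm v : ℝ) ^ k :=
  le_self_pow₀ (by linarith [Pool.Agent.R398.AS.two_le_Nm' v]) (by rintro rfl; simp at hk)

/-- **The least inert place at which the representations are tempered.** -/
theorem result (K : Type) [Field K] [NumberField K] {m : ℕ} (hm : 0 < m) {ε : ℝ} (hε : 0 < ε) :
    (∀ n : ℕ, ∃ A : ℝ, 0 < A ∧ ∀ (E : Type) [Field E] [NumberField E] [Algebra K E], Module.finrank K E = 2 →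
      ∀ (κ₀ : Fin (Module.finrank ℚ K) → ℂ) (Q₀ : ℝ), QuadraticL K E κ₀ Q₀ →
      ∀ (S : Finset (HeightOneSpectrum (𝓞 K))) (α : Fin m → HeightOneSpectrum (𝓞 E) → Fin n → ℂ)
        (β : Fin m → HeightOneSpectrum (𝓞 K) → Fin (n ^ 4 - 1) → ℂ)
        (T : Fin m → Finset (HeightOneSpectrum (𝓞 K) × Fin (n ^ 4 - 1)))
        (κ : Fin m → Fin ((n ^ 4 - 1) * Module.finrank ℚ K) → ℂ) (Q : Fin m → ℝ),
        (∀ i, AsaiGL S (α i) (β i) (T i) (κ i) (Q i)) →
        ∃ (v : HeightOneSpectrum (𝓞 K)) (k : ℕ), v ∉ S ∧ Inert E v ∧ Odd k ∧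
          (Nm v : ℝ) ^ k ≤ A * (∏ i, conductor E S Q₀ (T i) (κ i) (Q i)) ^ (1 + ε) ∧
          ∀ w : HeightOneSpectrum (𝓞 E), Above v w → ∑ i, ‖∑ j, α i w j ^ k‖ ^ 2 < 2 * m) ∧
    (m ≤ 2 → ∃ A : ℝ, 0 < A ∧ ∀ (E : Type) [Field E] [NumberField E] [Algebra K E], Module.finrank K E = 2 →
      ∀ (κ₀ : Fin (Module.finrank ℚ K) → ℂ) (Q₀ : ℝ), QuadraticL K E κ₀ Q₀ →
      ∀ (S : Finset (HeightOneSpectrum (𝓞 K))) (α : Fin m → HeightOneSpectrum (𝓞 E) → Fin 2 → ℂ)
        (β : Fin m → HeightOneSpectrum (𝓞 K) → Fin (2 ^ 4 - 1) → ℂ)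
        (T : Fin m → Finset (HeightOneSpectrum (𝓞 K) × Fin (2 ^ 4 - 1)))
        (κ : Fin m → Fin ((2 ^ 4 - 1) * Module.finrank ℚ K) → ℂ) (Q : Fin m → ℝ),
        (∀ i, ∀ w : HeightOneSpectrum (𝓞 E), (∀ v ∈ S, ¬ Above v w) → Unitary (α i w)) →
        (∀ i, AsaiGL S (α i) (β i) (T i) (κ i) (Q i)) →
        ∃ v : HeightOneSpectrum (𝓞 K), v ∉ S ∧ Inert E v ∧
          (Nm v : ℝ) ≤ A * (∏ i, conductor E S Q₀ (T i) (κ i) (Q i)) ^ (1 + ε) ∧
          ∀ w : HeightOneSpectrum (𝓞 E), Above v w → ∀ i j, ‖α i w j‖ = 1) ∧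
    (m ≤ 4 → ∃ A : ℝ, 0 < A ∧ ∀ (E : Type) [Field E] [NumberField E] [Algebra K E], Module.finrank K E = 2 →
      ∀ (κ₀ : Fin (Module.finrank ℚ K) → ℂ) (Q₀ : ℝ), QuadraticL K E κ₀ Q₀ →
      ∀ (S : Finset (HeightOneSpectrum (𝓞 K))) (α : Fin m → HeightOneSpectrum (𝓞 E) → Fin 2 → ℂ)
        (β : Fin m → HeightOneSpectrum (𝓞 K) → Fin (3 ^ 4 - 1) → ℂ)
        (T : Fin m → Finset (HeightOneSpectrum (𝓞 K) × Fin (3 ^ 4 - 1)))
        (κ : Fin m → Fin ((3 ^ 4 - 1) * Module.finrank ℚ K) → ℂ) (Q : Fin m → ℝ),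
        (∀ i, ∀ w : HeightOneSpectrum (𝓞 E), (∀ v ∈ S, ¬ Above v w) → Unitary (α i w)) →
        (∀ i, AsaiGL S (fun w => lift3 (α i w)) (β i) (T i) (κ i) (Q i)) →
        ∃ v : HeightOneSpectrum (𝓞 K), v ∉ S ∧ Inert E v ∧
          (Nm v : ℝ) ≤ A * (∏ i, conductor E S Q₀ (T i) (κ i) (Q i)) ^ (1 + ε) ∧
          ∀ w : HeightOneSpectrum (𝓞 E), Above v w → ∀ i j, ‖α i w j‖ = 1) := by
  refine ⟨fun n => first K hm n hε, fun h2 => ?_, fun h4 => ?_⟩
  · obtain ⟨A, hA0, hA⟩ := first K hm 2 hε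
    refine ⟨A, hA0, fun E _ _ _ hE κ₀ Q₀ h₀ S α β T κ Q hU h => ?_⟩
    obtain ⟨v, k, hv, hi, hk, hle, hlt⟩ := hA E hE κ₀ Q₀ h₀ S α β T κ Q h
    refine ⟨v, hv, hi, (norm_le hk).trans hle, fun w hw i => ?_⟩
    have h5 := hU i w (out hv hw)
    refine Pool.Agent.Y725.UG.temp_two h5.1 h5.2 (k := k) ?_
    have h6 : ‖∑ j, α i w j ^ k‖ ^ 2 ≤ ∑ i, ‖∑ j, α i w j ^ k‖ ^ 2 :=
      Finset.single_le_sum (f := fun i => ‖∑ j, α i w j ^ k‖ ^ 2) (fun _ _ => sq_nonneg _) (Finset.mem_univ i)
    have h7 := hlt w hw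
    have h8 : (m : ℝ) ≤ 2 := by exact_mod_cast h2
    nlinarith [norm_nonneg (∑ j, α i w j ^ k)]
  · obtain ⟨A, hA0, hA⟩ := first K hm 3 hε
    refine ⟨A, hA0, fun E _ _ _ hE κ₀ Q₀ h₀ S α β T κ Q hU h => ?_⟩
    obtain ⟨v, k, hv, hi, hk, hle, hlt⟩ := hA E hE κ₀ Q₀ h₀ S (fun i w => lift3 (α i w)) β T κ Q h
    refine ⟨v, hv, hi, (norm_le hk).trans hle, fun w hw i => ?_⟩
    have h5 := hU i w (out hv hw)
    refine Pool.Agent.Y725.UG.temp_adj h5.1 h5.2 (k := k) ?_
    have h6 : ‖∑ j, lift3 (α i w) j ^ k‖ ^ 2 ≤ ∑ i, ‖∑ j, lift3 (α i w) j ^ k‖ ^ 2 :=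
      Finset.single_le_sum (f := fun i => ‖∑ j, lift3 (α i w) j ^ k‖ ^ 2) (fun _ _ => sq_nonneg _)
        (Finset.mem_univ i)
    have h7 := hlt w hw
    have h8 : (m : ℝ) ≤ 4 := by exact_mod_cast h4
    have h9 : ∑ j, Pool.Agent.Y725.UG.adj (α i w) j ^ k = ∑ j, lift3 (α i w) j ^ k := rfl
    rw [h9]
    nlinarith [norm_nonneg (∑ j, lift3 (α i w) j ^ k)]

end Pool.Agent.Results.MP_8410ab_nt.LeastInertPlace
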